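import Mathlib.Topology.Baire.BaireMeasurable
import Mathlib.Topology.Baire.CompleteMetrizable
import Mathlib.Topology.Baire.Lemmas
import Mathlib.MeasureTheory.Constructions.Polish.Basic

namespace Pool.Agent.Results.MP_a2e3d9_lc.NoBaireMeasurableGoodSet

open Set Filter Topology

/-- The orbit equivalence relation `E_f` of `f : X → X`: two points are equivalent iff some
forward iterates of them agree. -/
def OrbitEquiv {X : Type*} (f : X → X) (x y : X) : Prop :=
  ∃ m n : ℕ, f^[m] x = f^[n] y

/-- `B` is *good* for `f`: it is a complete section for `E_f` (it meets every class), it is forward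
invariant (`f[B] ⊆ B`), and `f` restricted to `B` is finite-to-one. -/
structure Good {X : Type*} (f : X → X) (B : Set X) : Prop where
  completeSection : ∀ x : X, ∃ y ∈ B, OrbitEquiv f x y
  forwardInvariant : f '' B ⊆ B
  finiteToOne : ∀ y : X, (f ⁻¹' {y} ∩ B).Finite

/-! ### The example: `f (k, x) = (k + 1, shift x)` on `ℕ × ℕ^ℕ` -/

/-- The map `(k, x) ↦ (k + 1, shift x)`. -/
def F (p : ℕ × (ℕ → ℕ)) : ℕ × (ℕ → ℕ) := (p.1 + 1, fun i => p.2 (i + 1))

/-- Put the first `l` values of `x` in front of `y`, on level `k`. -/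
def glue (k l : ℕ) (x : ℕ → ℕ) (y : ℕ → ℕ) : ℕ × (ℕ → ℕ) :=
  (k, fun i => if i < l then x i else y (i - l))

theorem F_continuous : Continuous F := by
  unfold F
  fun_prop

theorem F_iterate (n : ℕ) (p : ℕ × (ℕ → ℕ)) : F^[n] p = (p.1 + n, fun i => p.2 (i + n)) := by
  induction n generalizing p with
  | zero => simp
  | succ n ih =>
    rw [Function.iterate_succ_apply, ih]
    simp only [F, Prod.mk.injEq]
    refine ⟨by omega, ?_⟩
    funext i
    congr 1

theorem glue_continuous (k l : ℕ) (x : ℕ → ℕ) : Continuous (glue k l x) := by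
  unfold glue
  refine continuous_const.prodMk (continuous_pi fun i => ?_)
  by_cases h : i < l
  · simp [h, continuous_const]
  · simpa [h] using continuous_apply (i - l)

theorem glue_isOpenMap (k l : ℕ) (x : ℕ → ℕ) : IsOpenMap (glue k l x) := by
  intro U hU
  have : glue k l x '' U =
      (Prod.fst ⁻¹' {k}) ∩ ((⋂ i ∈ Finset.range l, (fun p : ℕ × (ℕ → ℕ) => p.2 i) ⁻¹' {x i}) ∩
        (fun p : ℕ × (ℕ → ℕ) => fun i => p.2 (i + l)) ⁻¹' U) := by
    ext ⟨a, z⟩
    simp only [mem_image, mem_inter_iff, mem_preimage, mem_singleton_iff, mem_iInter,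
      Finset.mem_range]
    constructor
    · rintro ⟨y, hy, h⟩
      simp only [glue, Prod.mk.injEq] at h
      obtain ⟨rfl, rfl⟩ := h
      refine ⟨rfl, fun i hi => by simp [hi], ?_⟩
      simpa using hy
    · rintro ⟨rfl, h1, h2⟩
      refine ⟨_, h2, ?_⟩
      simp only [glue, Prod.mk.injEq, true_and]
      funext i
      by_cases hi : i < l
      · simp [hi, h1 i hi]
      · simp [hi, Nat.sub_add_cancel (not_lt.mp hi)]
  rw [this]
  refine IsOpen.inter (isOpen_discrete _ |>.preimage continuous_fst) (IsOpen.inter ?_ ?_)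
  · refine isOpen_biInter_finset fun i _ => ?_
    exact (isOpen_discrete _).preimage ((continuous_apply i).comp continuous_snd)
  · exact hU.preimage (by fun_prop)

theorem glue_mem_of_isOpen {V : Set (ℕ × (ℕ → ℕ))} (hV : IsOpen V) {k : ℕ} {x : ℕ → ℕ}
    (hx : (k, x) ∈ V) (m : ℕ) : ∃ l, m ≤ l ∧ ∀ y, glue k l x y ∈ V := by
  have hV' : IsOpen {z : ℕ → ℕ | (k, z) ∈ V} := hV.preimage (by fun_prop)
  obtain ⟨I, u, hu, hI⟩ := (isOpen_pi_iff.mp hV') x hx
  refine ⟨m + (I.sup id + 1), by omega, fun y => ?_⟩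
  apply hI
  intro i hi
  have : i < m + (I.sup id + 1) := by
    have : id i ≤ I.sup id := Finset.le_sup (f := id) hi
    simp only [id] at this
    omega
  simp only [this, if_true]
  exact (hu i hi).2

theorem F_iterate_glue (k l : ℕ) (x y : ℕ → ℕ) : F^[l] (glue k l x y) = (k + l, y) := by
  rw [F_iterate]
  simp [glue]

theorem iterate_mem_of_le {X : Type*} {f : X → X} {B : Set X} (h : f '' B ⊆ B) {m l : ℕ}
    (hml : m ≤ l) {x : X} (hx : f^[m] x ∈ B) : f^[l] x ∈ B := by
  induction l, hml using Nat.le_induction with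
  | base => exact hx
  | succ l _ ih =>
    rw [Function.iterate_succ_apply']
    exact h ⟨_, ih, rfl⟩

theorem F_isOpenMap : IsOpenMap F := by
  intro U hU
  have : F '' U = ⋃ k : ℕ, ⋃ n : ℕ, (Prod.fst ⁻¹' {k + 1}) ∩
      (fun p : ℕ × (ℕ → ℕ) => glue k 1 (fun _ => n) p.2) ⁻¹' U := by
    ext ⟨a, z⟩
    simp only [mem_image, mem_iUnion, mem_inter_iff, mem_preimage, mem_singleton_iff]
    constructor
    · rintro ⟨⟨k, x⟩, hx, h⟩
      simp only [F, Prod.mk.injEq] at h
      obtain ⟨rfl, rfl⟩ := h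
      refine ⟨k, x 0, rfl, ?_⟩
      have : glue k 1 (fun _ => x 0) (fun i => x (i + 1)) = (k, x) := by
        simp only [glue, Prod.mk.injEq, true_and]
        funext i
        rcases i with _ | i <;> simp
      simpa [this] using hx
    · rintro ⟨k, n, rfl, h⟩
      refine ⟨_, h, ?_⟩
      simp [F, glue]
  rw [this]
  refine isOpen_iUnion fun k => isOpen_iUnion fun n => IsOpen.inter ?_ ?_
  · exact isOpen_discrete _ |>.preimage continuous_fst
  · exact hU.preimage ((glue_continuous k 1 _).comp continuous_snd)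

theorem F_iterate_continuous (n : ℕ) : Continuous F^[n] := F_continuous.iterate n

theorem F_iterate_isOpenMap (n : ℕ) : IsOpenMap F^[n] := by
  induction n with
  | zero => exact IsOpenMap.id
  | succ n ih =>
    rw [Function.iterate_succ']
    exact F_isOpenMap.comp ih

/-- No set with the Baire property is good for `F`. -/
theorem not_good_of_baireMeasurableSet (B : Set (ℕ × (ℕ → ℕ))) (hB : BaireMeasurableSet B) :
    ¬ Good F B := by
  rintro ⟨hsec, hinv, hfin⟩
  -- every point is eventually mapped into `B`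
  have hcover : ∀ x, ∃ m, F^[m] x ∈ B := by
    intro x
    obtain ⟨y, hy, m, n, h⟩ := hsec x
    exact ⟨m, by rw [h]; exact iterate_mem_of_le hinv (Nat.zero_le n) (by simpa using hy)⟩
  have hBm : ∀ m : ℕ, BaireMeasurableSet (F^[m] ⁻¹' B) := fun m =>
    hB.preimage (F_iterate_continuous m) (F_iterate_isOpenMap m)
  choose u hu hueq using fun m => (hBm m).residualEq_isOpen
  -- one of the open sets `u m` is nonempty
  have hne : ∃ m, (u m).Nonempty := by
    by_contra hcon
    push Not at hcon
    have h1 : ∀ᶠ x in residual (ℕ × (ℕ → ℕ)), ∀ m, x ∉ F^[m] ⁻¹' B := by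
      rw [eventually_countable_forall]
      intro m
      filter_upwards [(hueq m).mem_iff] with x hx
      rw [hx, hcon m]
      simp
    obtain ⟨x, hx⟩ := (dense_of_mem_residual h1).nonempty
    obtain ⟨m, hm⟩ := hcover x
    exact hx m hm
  obtain ⟨m, ⟨k, x⟩, hkx⟩ := hne
  obtain ⟨l, hml, hl⟩ := glue_mem_of_isOpen (hu m) hkx m
  -- `B` is residual on level `k + l`
  have hA : ∀ᶠ y in residual (ℕ → ℕ), ((k + l, y) : ℕ × (ℕ → ℕ)) ∈ B := by
    have h2 := (tendsto_residual_of_isOpenMap (glue_continuous k l x)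
      (glue_isOpenMap k l x)).eventually (hueq m).mem_iff
    filter_upwards [h2] with y hy
    have h3 : F^[m] (glue k l x y) ∈ B := hy.mpr (hl y)
    have h4 := iterate_mem_of_le hinv hml h3
    rwa [F_iterate_glue] at h4
  -- so a generic `y` has all points `(k + l, n⌢y)` in `B`
  have hcons_cont : ∀ n : ℕ, Continuous (fun y : ℕ → ℕ => (glue 0 1 (fun _ => n) y).2) := fun n =>
    continuous_snd.comp (glue_continuous 0 1 _)
  have hcons_open : ∀ n : ℕ, IsOpenMap (fun y : ℕ → ℕ => (glue 0 1 (fun _ => n) y).2) := fun n =>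
    isOpenMap_snd.comp (glue_isOpenMap 0 1 _)
  have hall : ∀ᶠ y in residual (ℕ → ℕ), ∀ n : ℕ,
      ((k + l, (glue 0 1 (fun _ => n) y).2) : ℕ × (ℕ → ℕ)) ∈ B := by
    rw [eventually_countable_forall]
    intro n
    exact (tendsto_residual_of_isOpenMap (hcons_cont n) (hcons_open n)).eventually hA
  obtain ⟨y, hy⟩ := (dense_of_mem_residual hall).nonempty
  have hinj : Function.Injective
      (fun n : ℕ => ((k + l, (glue 0 1 (fun _ => n) y).2) : ℕ × (ℕ → ℕ))) := by
    intro a b hab
    simp only [glue, Prod.mk.injEq, true_and] at hab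
    simpa using congrFun hab 0
  have hsub : range (fun n : ℕ => ((k + l, (glue 0 1 (fun _ => n) y).2) : ℕ × (ℕ → ℕ))) ⊆
      F ⁻¹' {(k + l + 1, y)} ∩ B := by
    rintro _ ⟨n, rfl⟩
    refine ⟨?_, hy n⟩
    simp [F, glue]
  exact (infinite_range_of_injective hinj) ((hfin _).subset hsub)

theorem F_preimage_countable (y : ℕ × (ℕ → ℕ)) : (F ⁻¹' {y}).Countable := by
  have hsub : F ⁻¹' {y} ⊆ range (fun q : ℕ × ℕ => glue q.1 1 (fun _ => q.2) y.2) := by
    rintro ⟨k, x⟩ rfl
    refine ⟨(k, x 0), ?_⟩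
    simp only [glue, F, Prod.mk.injEq, true_and]
    funext i
    rcases i with _ | i <;> simp
  exact (countable_range _).mono hsub

theorem F_aperiodic (x : ℕ × (ℕ → ℕ)) (n : ℕ) (hn : 1 ≤ n) : F^[n] x ≠ x := by
  rw [F_iterate]
  intro h
  have := congrArg Prod.fst h
  simp only at this
  omega

theorem F_wellFounded : ¬ ∃ x : ℕ → ℕ × (ℕ → ℕ), ∀ i, F (x (i + 1)) = x i := by
  rintro ⟨x, hx⟩
  have h : ∀ i, (x i).1 + i = (x 0).1 := by
    intro i
    induction i with
    | zero => simp
    | succ i ih =>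
      have := congrArg Prod.fst (hx i)
      simp only [F] at this
      omega
  have := h ((x 0).1 + 1)
  omega

/-- There are a Polish space `X` and a countable-to-1, aperiodic, well-founded Borel map
`f : X → X` such that no Borel set, and in fact no set with the property of Baire, is good
for `f`. -/
theorem result :
    ∃ (X : Type) (_ : TopologicalSpace X) (_ : PolishSpace X) (_ : MeasurableSpace X)
      (_ : BorelSpace X) (f : X → X),
      Measurable f ∧
      (∀ y : X, (f ⁻¹' {y}).Countable) ∧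
      (∀ (x : X) (n : ℕ), 1 ≤ n → f^[n] x ≠ x) ∧
      (¬ ∃ x : ℕ → X, ∀ i, f (x (i + 1)) = x i) ∧
      (∀ B : Set X, MeasurableSet B → ¬ Good f B) ∧
      (∀ B : Set X, BaireMeasurableSet B → ¬ Good f B) :=
  ⟨ℕ × (ℕ → ℕ), inferInstance, inferInstance, inferInstance, inferInstance, F,
    F_continuous.measurable, F_preimage_countable, F_aperiodic, F_wellFounded,
    fun B hB => not_good_of_baireMeasurableSet B hB.baireMeasurableSet,
    not_good_of_baireMeasurableSet⟩

end Pool.Agent.Results.MP_a2e3d9_lc.NoBaireMeasurableGoodSet
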